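import Pool.Agent.helper3.DP.SpecG1
import Pool.Agent.helper96.DP.Basic

/-!
# Project dp, module GFU: probability of loops around many cells (FKG)
-/

namespace DP

open MeasureTheory

theorem GFU_prob : IsProbabilityMeasure P1 := by unfold P1; infer_instance

theorem GFU_aux (hFKG : Bfkg_stmt) (hZ : Bzero_stmt) (k : Bool) (F G : Set (V → Bool)) (A : Set V)
    (hF : Loc F A) (hG : Loc G A) (hmF : Mon k F) (hmG : Mon k G) : Pr F * Pr G ≤ Pr (F ∩ G) := by
  have h := hFKG (fun _ => 0) k F G A hF hG hmF hmG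
  rw [hZ (fun _ => 0) F F A hF hF (fun _ _ => rfl), hZ (fun _ => 0) G G A hG hG (fun _ _ => rfl),
    hZ (fun _ => 0) (F ∩ G) (F ∩ G) (A ∪ A) (hF.inter hG) (hF.inter hG) (fun _ _ => rfl),
    Set.inter_self, Set.inter_self, Set.inter_self] at h
  exact h

theorem GFU (hFKG : Bfkg_stmt) (hZ : Bzero_stmt) (hGLL : GLL_stmt) : GFU_stmt := by
  classical
  intro c₀ ℓ h0 hc k x T
  have key : (Loc (Ev fun c => GFull c k x ℓ T) Set.univ ∧ Mon k (Ev fun c => GFull c k x ℓ T)) ∧
      c₀ ^ T.card ≤ Pr (Ev fun c => GFull c k x ℓ T) := by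
    induction T using Finset.induction_on with
    | empty =>
      have e : (Ev fun c => GFull c k x ℓ ∅) = Set.univ := by
        ext b; simp [Ev, GFull]
      rw [e]
      refine ⟨⟨Loc.univ _, Mon.univ k⟩, ?_⟩
      haveI := GFU_prob
      unfold Pr
      simp
    | insert g T hg ih =>
      obtain ⟨⟨h1, h2⟩, h3⟩ := ih
      have e : (Ev fun c => GFull c k x ℓ (insert g T)) =
          (Ev fun c => ∃ S, Loop c k (x.1 + 2 * ℓ * g.1, x.2 + 2 * ℓ * g.2) ℓ S) ∩
            (Ev fun c => GFull c k x ℓ T) := by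
        ext b
        simp only [Ev, GFull, Set.mem_ofPred_eq, Set.mem_inter_iff, Finset.mem_insert,
          forall_eq_or_imp]
      obtain ⟨h4, h5⟩ := hGLL k (x.1 + 2 * ℓ * g.1, x.2 + 2 * ℓ * g.2) ℓ
      have h6 : Loc (Ev fun c => ∃ S, Loop c k (x.1 + 2 * ℓ * g.1, x.2 + 2 * ℓ * g.2) ℓ S)
          Set.univ := h4.mono (Set.subset_univ _)
      rw [e]
      refine ⟨⟨?_, h5.inter h2⟩, ?_⟩
      · have := h6.inter h1
        rwa [Set.union_self] at this
      · rw [Finset.card_insert_of_notMem hg, pow_succ']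
        calc c₀ * c₀ ^ T.card ≤
            Pr (Ev fun c => ∃ S, Loop c k (x.1 + 2 * ℓ * g.1, x.2 + 2 * ℓ * g.2) ℓ S) *
              Pr (Ev fun c => GFull c k x ℓ T) :=
              mul_le_mul (hc _ _) h3 (by positivity) (le_trans h0 (hc _ _))
          _ ≤ _ := GFU_aux hFKG hZ k _ _ _ h6 h1 h5 h2
  exact key.2

end DP
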