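import Pool.Agent.helper96.DP.API
import Pool.Agent.helper95.DP.Fin

/-!
# Project dp, module BBK: the inequality of BK type

The sites are split one after the other: `BBK_E S` is the event for a pair of independent
configurations in which the sets `L` use the second configuration on `S`.
-/

namespace DP

open MeasureTheory

section

variable (k : Bool) (D D' : Set (Finset V)) (I : Set (V → Bool))

/-- The split event. -/
def BBK_E (S : Finset V) : Set (V → Bool × Bool) :=
  {w | (fun v => (w v).1) ∈ I ∧ ∃ K ∈ D, ∃ L ∈ D', (∀ v ∈ K, v ∈ L → v ∈ S) ∧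
    (∀ v ∈ K, col (fun v => (w v).1) v = k) ∧
      ∀ v ∈ L, (v ∈ S → col (fun v => (w v).2) v = k) ∧ (v ∉ S → col (fun v => (w v).1) v = k)}

/-- The conditions away from the site `v`. -/
def BBK_R (S : Finset V) (v : V) (b b' : V → Bool) (p q : Bool) : Prop :=
  ∃ K ∈ D, ∃ L ∈ D', (p = false → v ∉ K) ∧ (q = false → v ∉ L) ∧
    (∀ u ∈ K, u ∈ L → u ≠ v → u ∈ S) ∧ (∀ u ∈ K, u ≠ v → col b u = k) ∧
      ∀ u ∈ L, u ≠ v → (u ∈ S → col b' u = k) ∧ (u ∉ S → col b u = k)

/-- The site carries a coin. -/
def BBK_coin (v : V) : Prop :=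
  ¬ (v.1 % 2 = 0 ∧ v.2 % 2 = 0) ∧ ¬ (v.1 % 2 = 1 ∧ v.2 % 2 = 1)

theorem BBK_col_coin {v : V} (h : BBK_coin v) (b : V → Bool) : col b v = b v := by
  unfold col
  rw [if_neg h.1, if_neg h.2]

theorem BBK_col_det {v : V} (h : ¬ BBK_coin v) (b b' : V → Bool) : col b v = col b' v := by
  unfold col
  by_cases h1 : v.1 % 2 = 0 ∧ v.2 % 2 = 0
  · rw [if_pos h1, if_pos h1]
  · by_cases h2 : v.1 % 2 = 1 ∧ v.2 % 2 = 1
    · rw [if_neg h1, if_neg h1, if_pos h2, if_pos h2]
    · exact absurd ⟨h1, h2⟩ h

theorem BBK_col_congr {b b' : V → Bool} {v : V} (h : b v = b' v) : col b v = col b' v := by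
  unfold col
  rw [h]

theorem BBK_col_upd (b : V → Bool) {u v : V} (h : u ≠ v) (a : Bool) :
    col (Function.update b v a) u = col b u :=
  BBK_col_congr (Function.update_of_ne h _ _)

variable {k D D' I}

theorem BBK_mem1 {S : Finset V} {v : V} (hv : v ∉ S) (hc : BBK_coin v) (w : V → Bool × Bool)
    (a : Bool × Bool) :
    Function.update w v a ∈ BBK_E k D D' I S ↔
      Function.update (fun u => (w u).1) v a.1 ∈ I ∧
        ((a.1 = k ∧ (BBK_R k D D' S v (fun u => (w u).1) (fun u => (w u).2) true false ∨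
            BBK_R k D D' S v (fun u => (w u).1) (fun u => (w u).2) false true)) ∨
          (a.1 ≠ k ∧ BBK_R k D D' S v (fun u => (w u).1) (fun u => (w u).2) false false)) := by
  unfold BBK_E BBK_R
  rw [Set.mem_ofPred_eq, upd_fst, upd_snd]
  refine and_congr_right fun _ => ?_
  constructor
  · rintro ⟨K, hK, L, hL, h1, h2, h3⟩
    have hdis : ∀ u ∈ K, u ∈ L → u ≠ v → u ∈ S := fun u hu hu' _ => h1 u hu hu'
    have hcK : ∀ u ∈ K, u ≠ v → col (fun u => (w u).1) u = k := fun u hu hne => by
      rw [← h2 u hu, BBK_col_upd _ hne]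
    have hcL : ∀ u ∈ L, u ≠ v → (u ∈ S → col (fun u => (w u).2) u = k) ∧
        (u ∉ S → col (fun u => (w u).1) u = k) := fun u hu hne =>
      ⟨fun hs => by rw [← (h3 u hu).1 hs, BBK_col_upd _ hne],
        fun hs => by rw [← (h3 u hu).2 hs, BBK_col_upd _ hne]⟩
    by_cases hvK : v ∈ K
    · have e := h2 v hvK
      rw [BBK_col_coin hc, Function.update_self] at e
      have hvL : v ∉ L := fun h => hv (h1 v hvK h)
      exact Or.inl ⟨e, Or.inl ⟨K, hK, L, hL, fun h => by simp at h, fun _ => hvL, hdis, hcK, hcL⟩⟩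
    · by_cases hvL : v ∈ L
      · have e := (h3 v hvL).2 hv
        rw [BBK_col_coin hc, Function.update_self] at e
        exact Or.inl ⟨e, Or.inr ⟨K, hK, L, hL, fun _ => hvK, fun h => by simp at h, hdis, hcK, hcL⟩⟩
      · by_cases ha : a.1 = k
        · exact Or.inl ⟨ha, Or.inl ⟨K, hK, L, hL, fun h => by simp at h, fun _ => hvL, hdis, hcK,
            hcL⟩⟩
        · exact Or.inr ⟨ha, K, hK, L, hL, fun _ => hvK, fun _ => hvL, hdis, hcK, hcL⟩
  · rintro (⟨ha, ⟨K, hK, L, hL, -, h1, h2, h3, h4⟩ | ⟨K, hK, L, hL, h1, -, h2, h3, h4⟩⟩ |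
      ⟨ha, K, hK, L, hL, h0, h1, h2, h3, h4⟩)
    · have hvL := h1 rfl
      refine ⟨K, hK, L, hL, fun u hu hu' => h2 u hu hu' (fun e => hvL (e ▸ hu')), ?_, ?_⟩
      · intro u hu
        by_cases hne : u = v
        · subst hne; rw [BBK_col_coin hc, Function.update_self]; exact ha
        · rw [BBK_col_upd _ hne]; exact h3 u hu hne
      · intro u hu
        have hne : u ≠ v := fun e => hvL (e ▸ hu)
        rw [BBK_col_upd _ hne, BBK_col_upd _ hne]; exact h4 u hu hne
    · have hvK := h1 rfl
      refine ⟨K, hK, L, hL, fun u hu hu' => h2 u hu hu' (fun e => hvK (e ▸ hu)), ?_, ?_⟩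
      · intro u hu
        have hne : u ≠ v := fun e => hvK (e ▸ hu)
        rw [BBK_col_upd _ hne]; exact h3 u hu hne
      · intro u hu
        by_cases hne : u = v
        · subst hne
          refine ⟨fun hs => absurd hs hv, fun _ => ?_⟩
          rw [BBK_col_coin hc, Function.update_self]; exact ha
        · rw [BBK_col_upd _ hne, BBK_col_upd _ hne]; exact h4 u hu hne
    · have hvK := h0 rfl
      have hvL := h1 rfl
      refine ⟨K, hK, L, hL, fun u hu hu' => h2 u hu hu' (fun e => hvK (e ▸ hu)), ?_, ?_⟩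
      · intro u hu
        have hne : u ≠ v := fun e => hvK (e ▸ hu)
        rw [BBK_col_upd _ hne]; exact h3 u hu hne
      · intro u hu
        have hne : u ≠ v := fun e => hvL (e ▸ hu)
        rw [BBK_col_upd _ hne, BBK_col_upd _ hne]; exact h4 u hu hne

theorem BBK_mem2 {S : Finset V} {v : V} (hv : v ∉ S) (hc : BBK_coin v) (w : V → Bool × Bool)
    (a : Bool × Bool) :
    Function.update w v a ∈ BBK_E k D D' I (insert v S) ↔
      Function.update (fun u => (w u).1) v a.1 ∈ I ∧
        BBK_R k D D' S v (fun u => (w u).1) (fun u => (w u).2) (decide (a.1 = k))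
          (decide (a.2 = k)) := by
  unfold BBK_E BBK_R
  rw [Set.mem_ofPred_eq, upd_fst, upd_snd]
  refine and_congr_right fun _ => ?_
  constructor
  · rintro ⟨K, hK, L, hL, h1, h2, h3⟩
    refine ⟨K, hK, L, hL, ?_, ?_, ?_, ?_, ?_⟩
    · intro h hvK
      have e := h2 v hvK
      rw [BBK_col_coin hc, Function.update_self] at e
      exact (of_decide_eq_false h) e
    · intro h hvL
      have e := (h3 v hvL).1 (Finset.mem_insert_self _ _)
      rw [BBK_col_coin hc, Function.update_self] at e
      exact (of_decide_eq_false h) e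
    · intro u hu hu' hne
      exact (Finset.mem_insert.1 (h1 u hu hu')).resolve_left hne
    · intro u hu hne
      rw [← h2 u hu, BBK_col_upd _ hne]
    · intro u hu hne
      refine ⟨fun hs => ?_, fun hs => ?_⟩
      · rw [← (h3 u hu).1 (Finset.mem_insert_of_mem hs), BBK_col_upd _ hne]
      · rw [← (h3 u hu).2 (fun h => hs ((Finset.mem_insert.1 h).resolve_left hne)),
          BBK_col_upd _ hne]
  · rintro ⟨K, hK, L, hL, h0, h1, h2, h3, h4⟩
    refine ⟨K, hK, L, hL, ?_, ?_, ?_⟩
    · intro u hu hu'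
      by_cases hne : u = v
      · rw [hne]; exact Finset.mem_insert_self _ _
      · exact Finset.mem_insert_of_mem (h2 u hu hu' hne)
    · intro u hu
      by_cases hne : u = v
      · subst hne
        rw [BBK_col_coin hc, Function.update_self]
        by_contra ha
        exact h0 (decide_eq_false ha) hu
      · rw [BBK_col_upd _ hne]; exact h3 u hu hne
    · intro u hu
      by_cases hne : u = v
      · subst hne
        refine ⟨fun _ => ?_, fun h => absurd (Finset.mem_insert_self _ _) h⟩
        rw [BBK_col_coin hc, Function.update_self]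
        by_contra ha
        exact h1 (decide_eq_false ha) hu
      · rw [BBK_col_upd _ hne, BBK_col_upd _ hne]
        refine ⟨fun h => (h4 u hu hne).1 ((Finset.mem_insert.1 h).resolve_left hne),
          fun h => (h4 u hu hne).2 fun hs => h (Finset.mem_insert_of_mem hs)⟩

theorem BBK_R_mono {S : Finset V} {v : V} {b b' : V → Bool} {p q p' q' : Bool}
    (hp : p = true → p' = true) (hq : q = true → q' = true)
    (h : BBK_R k D D' S v b b' p q) : BBK_R k D D' S v b b' p' q' := by
  obtain ⟨K, hK, L, hL, h0, h1, h2⟩ := h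
  refine ⟨K, hK, L, hL, fun h => h0 ?_, fun h => h1 ?_, h2⟩
  · by_contra h'
    rw [Bool.not_eq_false] at h'
    rw [hp h'] at h
    exact absurd h (by simp)
  · by_contra h'
    rw [Bool.not_eq_false] at h'
    rw [hq h'] at h
    exact absurd h (by simp)

theorem BBK_det {S : Finset V} {v : V} (hc : ¬ BBK_coin v) (w : V → Bool × Bool)
    (h : w ∈ BBK_E k D D' I S) : w ∈ BBK_E k D D' I (insert v S) := by
  obtain ⟨h0, K, hK, L, hL, h1, h2, h3⟩ := h
  refine ⟨h0, K, hK, L, hL, fun u hu hu' => Finset.mem_insert_of_mem (h1 u hu hu'), h2, ?_⟩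
  intro u hu
  refine ⟨fun hs => ?_, fun hs => (h3 u hu).2 fun h => hs (Finset.mem_insert_of_mem h)⟩
  by_cases hus : u ∈ S
  · exact (h3 u hu).1 hus
  · have huv : u = v := (Finset.mem_insert.1 hs).resolve_right hus
    subst huv
    rw [BBK_col_det hc _ (fun v => (w v).1)]
    exact (h3 u hu).2 hus

theorem BBK_point {S : Finset V} {v : V} (hv : v ∉ S) (hI : Mon (!k) I) (w : V → Bool × Bool) :
    ind (BBK_E k D D' I S) (Function.update w v (true, true)) +
        ind (BBK_E k D D' I S) (Function.update w v (true, false)) +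
      ind (BBK_E k D D' I S) (Function.update w v (false, true)) +
        ind (BBK_E k D D' I S) (Function.update w v (false, false)) ≤
    ind (BBK_E k D D' I (insert v S)) (Function.update w v (true, true)) +
        ind (BBK_E k D D' I (insert v S)) (Function.update w v (true, false)) +
      ind (BBK_E k D D' I (insert v S)) (Function.update w v (false, true)) +
        ind (BBK_E k D D' I (insert v S)) (Function.update w v (false, false)) := by
  classical
  by_cases hc : BBK_coin v
  · simp only [ind_apply, BBK_mem1 hv hc, BBK_mem2 hv hc]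
    set b : V → Bool := fun u => (w u).1
    set b' : V → Bool := fun u => (w u).2
    have hX : Function.update b v k ∈ I → Function.update b v (!k) ∈ I := by
      refine hI _ _ fun u hu => ?_
      by_cases hne : u = v
      · subst hne; simp
      · rw [Function.update_of_ne hne] at hu ⊢; exact hu
    have h1 : BBK_R k D D' S v b b' false false → BBK_R k D D' S v b b' true false :=
      BBK_R_mono (by simp) (by simp)
    have h2 : BBK_R k D D' S v b b' false false → BBK_R k D D' S v b b' false true :=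
      BBK_R_mono (by simp) (by simp)
    have h3 : BBK_R k D D' S v b b' true false → BBK_R k D D' S v b b' true true :=
      BBK_R_mono (by simp) (by simp)
    have h4 : BBK_R k D D' S v b b' false true → BBK_R k D D' S v b b' true true :=
      BBK_R_mono (by simp) (by simp)
    cases k
    · simp only [Bool.not_false] at hX
      simp only [reduceCtorEq, ne_eq, not_false_eq_true, true_and, false_and, or_false, false_or,
        not_true_eq_false, decide_true, decide_false]
      by_cases x0 : Function.update b v false ∈ I <;> by_cases x1 : Function.update b v true ∈ I <;>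
        by_cases y1 : BBK_R false D D' S v b b' false false <;>
        by_cases y2 : BBK_R false D D' S v b b' true false <;>
        by_cases y3 : BBK_R false D D' S v b b' false true <;>
        by_cases y4 : BBK_R false D D' S v b b' true true <;>
        simp_all
    · simp only [Bool.not_true] at hX
      simp only [reduceCtorEq, ne_eq, not_false_eq_true, true_and, false_and, or_false, false_or,
        not_true_eq_false, decide_true, decide_false]
      by_cases x0 : Function.update b v false ∈ I <;> by_cases x1 : Function.update b v true ∈ I <;>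
        by_cases y1 : BBK_R true D D' S v b b' false false <;>
        by_cases y2 : BBK_R true D D' S v b b' true false <;>
        by_cases y3 : BBK_R true D D' S v b b' false true <;>
        by_cases y4 : BBK_R true D D' S v b b' true true <;>
        simp_all
  · have h : ∀ w : V → Bool × Bool, ind (BBK_E k D D' I S) w ≤
        ind (BBK_E k D D' I (insert v S)) w := by
      intro w
      by_cases hw : w ∈ BBK_E k D D' I S
      · rw [ind_of_mem hw, ind_of_mem (BBK_det hc w hw)]
      · rw [ind_of_notMem hw]; exact ind_nonneg _ _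
    linarith [h (Function.update w v (true, true)), h (Function.update w v (true, false)),
      h (Function.update w v (false, true)), h (Function.update w v (false, false))]

theorem BBK_lf {Λ : Finset V} (hD : ∀ K ∈ D, K ⊆ Λ) (hD' : ∀ K ∈ D', K ⊆ Λ)
    (hI : Dep I (Λ : Set V)) (S : Finset V) : LF Λ (ind (BBK_E k D D' I S)) := by
  have key : ∀ w w' : V → Bool × Bool, (∀ v ∈ Λ, w v = w' v) →
      w ∈ BBK_E k D D' I S → w' ∈ BBK_E k D D' I S := by
    intro w w' h hw
    obtain ⟨h0, K, hK, L, hL, h1, h2, h3⟩ := hw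
    have e1 : ∀ v ∈ Λ, col (fun v => (w v).1) v = col (fun v => (w' v).1) v := fun v hv =>
      BBK_col_congr (by show (w v).1 = (w' v).1; rw [h v hv])
    have e2 : ∀ v ∈ Λ, col (fun v => (w v).2) v = col (fun v => (w' v).2) v := fun v hv =>
      BBK_col_congr (by show (w v).2 = (w' v).2; rw [h v hv])
    refine ⟨?_, K, hK, L, hL, h1, fun v hv => ?_, fun v hv => ⟨fun hs => ?_, fun hs => ?_⟩⟩
    · exact (hI _ _ fun v hv => by
        show (w v).1 = (w' v).1
        rw [h v hv]).1 h0
    · rw [← e1 v (hD K hK hv)]; exact h2 v hv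
    · rw [← e2 v (hD' L hL hv)]; exact (h3 v hv).1 hs
    · rw [← e1 v (hD' L hL hv)]; exact (h3 v hv).2 hs
  intro w w' h
  by_cases hw : w ∈ BBK_E k D D' I S
  · rw [ind_of_mem hw, ind_of_mem (key w w' h hw)]
  · rw [ind_of_notMem hw, ind_of_notMem fun hw' => hw (key w' w (fun v hv => (h v hv).symm) hw')]

theorem BBK_sum {Λ : Finset V} {f : (V → Bool × Bool) → ℝ} (hf : LF Λ f) (v : V) :
    ex2 (fun _ => 1) f = 1 / 4 * ex2 (fun _ => 1) (fun w => f (Function.update w v (true, true)) +
      f (Function.update w v (true, false)) + f (Function.update w v (false, true)) +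
        f (Function.update w v (false, false))) := by
  have hg : ∀ a : Bool × Bool, LF Λ (fun w => f (Function.update w v a)) := fun a =>
    (hf.update' v a).mono (Finset.erase_subset _ _)
  have hw : ∀ a : Bool × Bool, wt (1 : ℝ) a = 1 / 4 := by
    intro a
    rw [wt_eq, clip_of_mem (by norm_num) le_rfl]
    ring
  rw [ex2_site (fun _ => 1) hf v, Fintype.sum_prod_type]
  simp only [Fintype.sum_bool, hw]
  rw [ex2_add (fun _ => 1) (((hg (true, true)).comp₂ (hg (true, false)) (· + ·)).comp₂
      (hg (false, true)) (· + ·)) (hg (false, false)),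
    ex2_add (fun _ => 1) ((hg (true, true)).comp₂ (hg (true, false)) (· + ·)) (hg (false, true)),
    ex2_add (fun _ => 1) (hg (true, true)) (hg (true, false))]
  ring

theorem BBK_le {Λ : Finset V} (hD : ∀ K ∈ D, K ⊆ Λ) (hD' : ∀ K ∈ D', K ⊆ Λ)
    (hI : Dep I (Λ : Set V)) (hM : Mon (!k) I) (S : Finset V) :
    ex2 (fun _ => 1) (ind (BBK_E k D D' I ∅)) ≤ ex2 (fun _ => 1) (ind (BBK_E k D D' I S)) := by
  classical
  induction S using Finset.induction_on with
  | empty => exact le_rfl
  | insert v S hv ih =>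
    refine ih.trans ?_
    have hf := BBK_lf (k := k) hD hD' hI S
    have hf' := BBK_lf (k := k) hD hD' hI (insert v S)
    have hg : ∀ a : Bool × Bool, LF Λ (fun w => ind (BBK_E k D D' I S) (Function.update w v a)) :=
      fun a => (hf.update' v a).mono (Finset.erase_subset _ _)
    have hg' : ∀ a : Bool × Bool,
        LF Λ (fun w => ind (BBK_E k D D' I (insert v S)) (Function.update w v a)) :=
      fun a => (hf'.update' v a).mono (Finset.erase_subset _ _)
    rw [BBK_sum hf v, BBK_sum hf' v]
    refine mul_le_mul_of_nonneg_left (ex2_mono (Λ := Λ) _ ?_ ?_ fun w => BBK_point hv hM w)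
      (by norm_num)
    · exact ((((hg (true, true)).comp₂ (hg (true, false)) (· + ·)).comp₂
        (hg (false, true)) (· + ·)).comp₂ (hg (false, false)) (· + ·))
    · exact ((((hg' (true, true)).comp₂ (hg' (true, false)) (· + ·)).comp₂
        (hg' (false, true)) (· + ·)).comp₂ (hg' (false, false)) (· + ·))

end

theorem Bbk (hone : Bone_stmt) : Bbk_stmt := by
  intro k Λ D D' I hD hD' hI hM
  obtain ⟨Λ', hΛ', hI'⟩ := hI
  have hIΛ : Dep I (Λ : Set V) := fun b b' hb => hI' b b' fun v hv => hb v (hΛ' hv)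
  set F1 : Set (V → Bool) := I ∩ Ev fun c => ∃ K ∈ D, ∃ L ∈ D', Disjoint K L ∧
    (∀ v ∈ K, c v = k) ∧ ∀ v ∈ L, c v = k with hF1
  set F2 : Set (V → Bool) := I ∩ Ev fun c => ∃ K ∈ D, ∀ v ∈ K, c v = k with hF2
  set F3 : Set (V → Bool) := Ev fun c => ∃ L ∈ D', ∀ v ∈ L, c v = k with hF3
  have hcol : ∀ b b' : V → Bool, (∀ v ∈ (Λ : Set V), b v = b' v) → ∀ v ∈ Λ, col b v = col b' v :=
    fun b b' hb v hv => BBK_col_congr (hb v hv)
  have hsymm : ∀ b b' : V → Bool, (∀ v ∈ (Λ : Set V), b v = b' v) →
      (∀ v ∈ (Λ : Set V), b' v = b v) := fun b b' hb v hv => (hb v hv).symm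
  have d1 : Dep F1 (Λ : Set V) := by
    have key : ∀ b b' : V → Bool, (∀ v ∈ (Λ : Set V), b v = b' v) → b ∈ F1 → b' ∈ F1 := by
      rintro b b' hb ⟨h0, K, hK, L, hL, h1, h2, h3⟩
      exact ⟨(hIΛ b b' hb).1 h0, K, hK, L, hL, h1,
        fun v hv => by rw [← hcol b b' hb v (hD K hK hv)]; exact h2 v hv,
        fun v hv => by rw [← hcol b b' hb v (hD' L hL hv)]; exact h3 v hv⟩
    exact fun b b' hb => ⟨key b b' hb, key b' b (hsymm b b' hb)⟩
  have d2 : Dep F2 (Λ : Set V) := by
    have key : ∀ b b' : V → Bool, (∀ v ∈ (Λ : Set V), b v = b' v) → b ∈ F2 → b' ∈ F2 := by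
      rintro b b' hb ⟨h0, K, hK, h2⟩
      exact ⟨(hIΛ b b' hb).1 h0, K, hK,
        fun v hv => by rw [← hcol b b' hb v (hD K hK hv)]; exact h2 v hv⟩
    exact fun b b' hb => ⟨key b b' hb, key b' b (hsymm b b' hb)⟩
  have d3 : Dep F3 (Λ : Set V) := by
    have key : ∀ b b' : V → Bool, (∀ v ∈ (Λ : Set V), b v = b' v) → b ∈ F3 → b' ∈ F3 := by
      rintro b b' hb ⟨L, hL, h3⟩
      exact ⟨L, hL, fun v hv => by rw [← hcol b b' hb v (hD' L hL hv)]; exact h3 v hv⟩
    exact fun b b' hb => ⟨key b b' hb, key b' b (hsymm b b' hb)⟩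
  have e1 : Pr F1 = ex2 (fun _ => 1) (ind (BBK_E k D D' I ∅)) := by
    rw [Pr_eq d1, ← ex2_fst (fun _ => 1) d1.lf]
    congr 1
    funext w
    have h : (fun v => (w v).1) ∈ F1 ↔ w ∈ BBK_E k D D' I ∅ := by
      constructor
      · rintro ⟨h0, K, hK, L, hL, h1, h2, h3⟩
        exact ⟨h0, K, hK, L, hL, fun v hv hv' => absurd hv' (Finset.disjoint_left.1 h1 hv), h2,
          fun v hv => ⟨fun h => absurd h (Finset.notMem_empty v), fun _ => h3 v hv⟩⟩
      · rintro ⟨h0, K, hK, L, hL, h1, h2, h3⟩
        exact ⟨h0, K, hK, L, hL, Finset.disjoint_left.2 fun v hv hv' =>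
          absurd (h1 v hv hv') (Finset.notMem_empty v), h2,
          fun v hv => (h3 v hv).2 (Finset.notMem_empty v)⟩
    by_cases hw : w ∈ BBK_E k D D' I ∅
    · rw [ind_of_mem hw, ind_of_mem (h.2 hw)]
    · rw [ind_of_notMem hw, ind_of_notMem fun h' => hw (h.1 h')]
  have e2 : Pr F2 * Pr F3 = ex2 (fun _ => 1) (ind (BBK_E k D D' I Λ)) := by
    rw [← hone (fun _ => 1) F2 F3 Set.univ ⟨Λ, Set.subset_univ _, d2⟩ ⟨Λ, Set.subset_univ _, d3⟩
      (fun _ _ => rfl), Q_eq _ d2 d3]
    unfold bf
    congr 1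
    funext w
    have h : ((fun v => (w v).1) ∈ F2 ∧ (fun v => (w v).2) ∈ F3) ↔ w ∈ BBK_E k D D' I Λ := by
      constructor
      · rintro ⟨⟨h0, K, hK, h2⟩, L, hL, h3⟩
        exact ⟨h0, K, hK, L, hL, fun v hv _ => hD K hK hv, h2,
          fun v hv => ⟨fun _ => h3 v hv, fun h => absurd (hD' L hL hv) h⟩⟩
      · rintro ⟨h0, K, hK, L, hL, h1, h2, h3⟩
        exact ⟨⟨h0, K, hK, h2⟩, L, hL, fun v hv => (h3 v hv).1 (hD' L hL hv)⟩
    by_cases hw : w ∈ BBK_E k D D' I Λ
    · obtain ⟨h1, h2⟩ := h.2 hw
      rw [ind_of_mem hw, ind_of_mem h1, ind_of_mem h2, mul_one]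
    · rw [ind_of_notMem hw]
      by_cases h1 : (fun v => (w v).1) ∈ F2
      · rw [ind_of_notMem (fun h2 => hw (h.1 ⟨h1, h2⟩)), mul_zero]
      · rw [ind_of_notMem h1, zero_mul]
  rw [e1, e2]
  exact BBK_le hD hD' hIΛ hM Λ

end DP
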