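import Pool.Agent.helper95.DP.SpecH

/-!
# dp:HIT. From the second moment bound to hitting probabilities
-/

namespace DP

open MeasureTheory

theorem HIT_two_congr {c c' : V → Bool} {m n : ℕ} (h : ∀ v, sd 0 v ≤ n → c v = c' v)
    (ht : two c 0 m n) : two c' 0 m n := by
  obtain ⟨⟨u, hu, v, hv, h1⟩, ⟨u', hu', v', hv', h2⟩⟩ := ht
  have hc : ∀ w ∈ ann 0 m n, c w = c' w := fun w hw => h w hw.2
  exact ⟨⟨u, hu, v, hv, (Conn.congr hc).1 h1⟩, ⟨u', hu', v', hv', (Conn.congr hc).1 h2⟩⟩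

theorem HIT_dep (m n : ℕ) : Dep (Ev fun c => two c 0 m n)
    (((box_finite 0 n).toFinset : Finset V) : Set V) := by
  intro b b' h
  have hc : ∀ v, sd 0 v ≤ n → col b v = col b' v := by
    intro v hv
    apply col_congr
    apply h
    simpa using (show v ∈ box 0 n from hv)
  exact ⟨fun ht => HIT_two_congr hc ht, fun ht => HIT_two_congr (fun v hv => (hc v hv).symm) ht⟩

theorem HIT (hSM : SM_stmt) (hHSM : HSM_stmt) (hHCE : HCE_stmt) (hHSB : HSB_stmt)
    (hHTW : HTW_stmt) : HIT_stmt := by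
  classical
  obtain ⟨m, C, hm, hC, hK⟩ := hSM
  refine ⟨m, hm, fun a b ha hab hba => ⟨(b - a) / (2 * (3 * C)), ?_, ?_⟩⟩
  · have : 0 < b - a := sub_pos.2 hab
    positivity
  intro N hN
  obtain ⟨N', hNN', hmN', hpos, hint⟩ := hK N
  set F : Set (V → Bool) := Ev fun c => two c 0 m (2 * N') with hF
  set S : Set V := {v | sd 0 v ≤ N'} with hS
  set Λ : Finset V := (box_finite 0 (2 * N')).toFinset with hΛ
  have hdep : Dep F (Λ : Set V) := HIT_dep m (2 * N')
  set f : (V → Bool) → ℝ :=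
    fun b => ex1 (fun b' => ind F (fun v => if v ∈ S then b v else b' v)) with hf
  have hce : ∀ ρ : V → ℝ, LF Λ f ∧ (∀ b, 0 ≤ f b) ∧ ex1 f = Pr F ∧
        bf ρ f f = Q (fun v => if v ∈ S then ρ v else 1) F F ∧
        (∀ b, 0 < f b → ∃ b', (∀ v ∈ S, b' v = b v) ∧ b' ∈ F) := by
    intro ρ
    have := hHCE Λ F S ρ hdep f (fun b => by
      simp only [hf]
      congr!)
    obtain ⟨h1, h2, h3, h4, h5⟩ := this
    refine ⟨h1, h2, h3, ?_, h5⟩
    rw [h4]
    congr!
  obtain ⟨hLF, hf0, hex, -, hb'⟩ := hce (fun _ => 0)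
  have hbf : ∀ ρ : V → ℝ, bf ρ f f = Q (fun v => if v ∈ S then ρ v else 1) F F :=
    fun ρ => (hce ρ).2.2.2.1
  have hbf' : ∀ ρ : V → ℝ, bf ρ f f = bf (fun v => if v ∈ S then ρ v else 1) f f := by
    intro ρ
    rw [hbf, hbf]
    congr 1
    funext v
    by_cases hv : v ∈ S <;> simp [hv]
  have hbf'' : ∀ ρ : V → ℝ, bf (fun v => if v ∈ S then ρ v else 1) f f =
      Q (fun v => if v ∈ S then ρ v else 1) F F := by
    intro ρ
    rw [← hbf', hbf]
  have key : (∫ u in (0 : ℝ)..1, bf (fun _ => 1 - Real.exp (-u)) f f) ≤ (3 * C) * ex1 f ^ 2 := by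
    have e1 : (∫ u in (0 : ℝ)..1, bf (fun _ => 1 - Real.exp (-u)) f f) =
        ∫ u in (0 : ℝ)..1, bf (fun v => if v ∈ S then 1 - Real.exp (-u) else 1) f f := by
      congr 1
      funext u
      exact hbf' (fun _ => 1 - Real.exp (-u))
    have e2 : (∫ u in (0 : ℝ)..1, bf (fun v => if v ∈ S then 1 - Real.exp (-u) else 1) f f) ≤
        3 * ∫ t in (0 : ℝ)..1, bf (fun v => if v ∈ S then t else 1) f f := by
      have := hHSB Λ f S hLF
      convert this
    have e3 : (∫ t in (0 : ℝ)..1, bf (fun v => if v ∈ S then t else 1) f f) =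
        ∫ t in (0 : ℝ)..1, Q (fun v => if sd 0 v ≤ N' then t else 1) F F := by
      congr 1
      funext t
      exact hbf'' (fun _ => t)
    rw [e1]
    refine e2.trans ?_
    rw [e3, hex]
    have : (∫ t in (0 : ℝ)..1, Q (fun v => if sd 0 v ≤ N' then t else 1) F F) ≤ C * Pr F ^ 2 := hint
    nlinarith
  have hmain := hHSM Λ f a b (3 * C) hLF hf0 ha hab hba (by positivity) (by rw [hex]; exact hpos) key
  refine hmain.trans ?_
  apply measureReal_mono
  · rintro X ⟨q, hq1, hq2, hq3⟩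
    refine ⟨q, hq1, hq2, ?_⟩
    obtain ⟨b', hb1, hb2⟩ := hb' _ hq3
    have h2 : two (col b') 0 m (2 * N') := hb2
    have h3 : two (col b') 0 m N := hHTW _ 0 m m N (2 * N') le_rfl hN.le (by omega) h2
    refine HIT_two_congr (fun v hv => ?_) h3
    exact col_congr (hb1 v (hv.trans hNN'))
  · exact measure_ne_top _ _

end DP
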