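import Pool.Agent.helper96.DP.SpecF
import Pool.Agent.helper96.DP.Basic

/-!
# dp:SMS. Sum over the blocks
-/

namespace DP

open MeasureTheory

theorem SMS_geom {x : ℝ} (hx0 : 0 < x) (hx1 : x < 1) (p a J : ℕ) (hpa : p ≤ a) :
    ∑ l ∈ Finset.Ico a J, x ^ (l - p) ≤ x ^ (a - p) / (1 - x) := by
  rw [Finset.sum_Ico_eq_sum_range]
  have h1 : ∀ i ∈ Finset.range (J - a), x ^ (a + i - p) = x ^ (a - p) * x ^ i := by
    intro i _
    rw [← pow_add]
    congr 1
    omega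
  rw [Finset.sum_congr rfl h1, ← Finset.mul_sum, div_eq_mul_inv]
  refine mul_le_mul_of_nonneg_left ?_ (by positivity)
  rw [← tsum_geometric_of_lt_one hx0.le hx1]
  exact (summable_geometric_of_lt_one hx0.le hx1).sum_le_tsum _ fun i _ => by positivity

theorem SMS (hB : SMB_stmt) (hG : BLG_stmt) : SMS_stmt := by
  classical
  obtain ⟨k₀, hk⟩ := hB
  refine ⟨k₀, fun k hk0 => ?_⟩
  obtain ⟨c₁, c₂, C, i₀, hc1, hc2, hC, hki, H⟩ := hk k hk0
  set x : ℝ := (2 : ℝ) ^ (-c₂) with hx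
  have hx0 : 0 < x := by positivity
  have hx1 : x < 1 := Real.rpow_lt_one_of_one_lt_of_neg (by norm_num) (by linarith)
  have hpos : (0 : ℝ) < (1 - x) / (32 * C) := by
    have : 0 < 1 - x := by linarith
    positivity
  obtain ⟨n, hn⟩ := exists_pow_lt_of_lt_one hpos hx1
  refine ⟨c₁, i₀, n + 5, hc1, hki, by omega, ?_⟩
  intro t p₀ J ht0 ht1 hp hc hJ
  set Qt : ℝ := Q (rN t J) (Tw k J) (Tw k J) with hQt
  have hQ0 : 0 ≤ Qt := measureReal_nonneg
  set m : ℕ := 2 ^ p₀ with hm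
  set N : ℕ := 2 ^ J with hN
  set M : ℕ := 2 ^ (n + 5) with hM
  have hm1 : 1 ≤ m := Nat.one_le_two_pow
  have hmN : m ≤ N := Nat.pow_le_pow_right (by norm_num) (by omega)
  have hM4 : 4 ≤ M := by
    calc 4 = 2 ^ 2 := by norm_num
      _ ≤ 2 ^ (n + 5) := Nat.pow_le_pow_right (by norm_num) (by omega)
  obtain ⟨-, -, h3, h4, h5⟩ := hG m M N hm1 hmN hM4
  set y : ℤ × ℤ → V := fun z => (2 * (m : ℤ) * z.1, 2 * (m : ℤ) * z.2) with hy
  set L : ℤ × ℤ → ℕ := fun z => Nat.log 2 (sd 0 (y z)) with hL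
  have hmM : m * M = 2 ^ (p₀ + n + 5) := by
    rw [hm, hM, ← pow_add]
    congr 1
  have hmM' : 2 ^ (p₀ + n + 5) = 2 * 2 ^ (p₀ + n + 4) := by
    rw [pow_succ]
    ring
  have hmle : m ≤ 2 ^ (p₀ + n + 4) := Nat.pow_le_pow_right (by norm_num) (by omega)
  have hsd : ∀ z ∈ bix m M N, 2 ^ (p₀ + n + 4) ≤ sd 0 (y z) ∧ sd 0 (y z) ≤ 2 ^ J + 2 ^ p₀ := by
    intro z hz
    obtain ⟨a, b⟩ := h4 z hz
    refine ⟨?_, b⟩
    rw [hmM, hmM'] at a
    have a' : 2 * 2 ^ (p₀ + n + 4) < sd 0 (y z) + m := a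
    omega
  have hJ2 : 2 ^ J + 2 ^ p₀ < 2 ^ (J + 1) := by
    have : 2 ^ p₀ < 2 ^ J := Nat.pow_lt_pow_right (by norm_num) (by omega)
    rw [pow_succ]
    omega
  have hLz : ∀ z ∈ bix m M N, p₀ + n + 4 ≤ L z ∧ L z < J + 1 ∧ 2 ^ (L z) ≤ sd 0 (y z) ∧
      sd 0 (y z) < 2 ^ (L z + 1) := by
    intro z hz
    obtain ⟨a, b⟩ := hsd z hz
    have hne : sd 0 (y z) ≠ 0 := by
      have : 0 < 2 ^ (p₀ + n + 4) := by positivity
      omega
    refine ⟨Nat.le_log_of_pow_le (by norm_num) a, Nat.log_lt_of_lt_pow hne (by omega),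
      Nat.pow_log_le_self 2 hne, Nat.lt_pow_succ_log_self (by norm_num) _⟩
  set g : ℕ → ℝ := fun l => (2 : ℝ) ^ (-((2 + c₂) * ((l : ℝ) - p₀))) with hg
  have hg0 : ∀ l, 0 ≤ g l := fun l => by positivity
  have hterm : ∀ z ∈ bix m M N, Q (rN t J) (Piv (blo m z : Set V) (Tw k J))
      (Piv (blo m z : Set V) (Tw k J)) ≤ C * Qt * g (L z) := by
    intro z hz
    obtain ⟨a1, a2, a3, a4⟩ := hLz z hz
    have := H t p₀ J (L z) (y z) (blo m z : Set V) ht0 ht1 hp hc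
      ⟨m * z.1, by simp only [hy]; ring⟩ ⟨m * z.2, by simp only [hy]; ring⟩ (h3 z) (by omega)
      (by omega) a3 a4 (hsd z hz).2
    refine this.trans (le_of_eq ?_)
    simp only [hg]
    ring
  refine (Finset.sum_le_sum hterm).trans ?_
  rw [← Finset.mul_sum]
  have hmaps : ∀ z ∈ bix m M N, L z ∈ Finset.Ico (p₀ + n + 4) (J + 1) := by
    intro z hz
    obtain ⟨a1, a2, -, -⟩ := hLz z hz
    exact Finset.mem_Ico.2 ⟨a1, a2⟩
  rw [← Finset.sum_fiberwise_of_maps_to hmaps]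
  have hfib : ∀ l ∈ Finset.Ico (p₀ + n + 4) (J + 1),
      ∑ z ∈ bix m M N with L z = l, g (L z) ≤ 16 * x ^ (l - p₀) := by
    intro l hl
    have hl1 := (Finset.mem_Ico.1 hl).1
    have e1 : ∑ z ∈ bix m M N with L z = l, g (L z) =
        (((bix m M N).filter fun z => L z = l).card : ℝ) * g l := by
      rw [Finset.sum_congr rfl (g := fun _ => g l)]
      · rw [Finset.sum_const, nsmul_eq_mul]
      · intro z hz
        rw [(Finset.mem_filter.1 hz).2]
    rw [e1]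
    have hml : m ≤ 2 ^ l := Nat.pow_le_pow_right (by norm_num) (by omega)
    have e2 := h5 (2 ^ l) hml
    have e3 : (((bix m M N).filter fun z => L z = l).card : ℝ) ≤
        (((bix m M N).filter fun z =>
          sd 0 (2 * (m : ℤ) * z.1, 2 * (m : ℤ) * z.2) < 2 * 2 ^ l).card : ℝ) := by
      refine Nat.cast_le.2 (Finset.card_le_card ?_)
      intro z hz
      obtain ⟨z1, z2⟩ := Finset.mem_filter.1 hz
      refine Finset.mem_filter.2 ⟨z1, ?_⟩
      obtain ⟨-, -, -, a4⟩ := hLz z z1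
      rw [z2, pow_succ] at a4
      have : sd 0 (y z) < 2 * 2 ^ l := by omega
      exact this
    have e4 : (((bix m M N).filter fun z => L z = l).card : ℝ) ≤
        16 * (((2 ^ l : ℕ) : ℝ) / m) ^ 2 := by
      refine e3.trans ?_
      convert e2
    refine (mul_le_mul_of_nonneg_right e4 (hg0 l)).trans (le_of_eq ?_)
    have e5 : (((2 ^ l : ℕ) : ℝ) / m) ^ 2 = (2 : ℝ) ^ (2 * ((l : ℝ) - p₀)) := by
      rw [hm]
      push_cast
      rw [← Real.rpow_natCast 2 l, ← Real.rpow_natCast 2 p₀,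
        ← Real.rpow_sub (by norm_num : (0:ℝ) < 2), ← Real.rpow_natCast _ 2,
        ← Real.rpow_mul (by norm_num : (0:ℝ) ≤ 2)]
      congr 1
      push_cast
      ring
    have e6 : x ^ (l - p₀) = (2 : ℝ) ^ (-c₂ * ((l : ℝ) - p₀)) := by
      rw [hx, ← Real.rpow_natCast, ← Real.rpow_mul (by norm_num : (0:ℝ) ≤ 2),
        Nat.cast_sub (by omega)]
    rw [e5, e6]
    simp only [hg]
    rw [mul_assoc, ← Real.rpow_add (by norm_num : (0:ℝ) < 2)]
    congr 2
    ring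
  have hsum : ∑ l ∈ Finset.Ico (p₀ + n + 4) (J + 1),
      ∑ z ∈ bix m M N with L z = l, g (L z) ≤ 16 * (x ^ n / (1 - x)) := by
    refine (Finset.sum_le_sum hfib).trans ?_
    rw [← Finset.mul_sum]
    refine mul_le_mul_of_nonneg_left ?_ (by norm_num)
    refine (SMS_geom hx0 hx1 p₀ (p₀ + n + 4) (J + 1) (by omega)).trans ?_
    have e7 : p₀ + n + 4 - p₀ = n + 4 := by omega
    rw [e7]
    have : 0 < 1 - x := by linarith
    refine div_le_div_of_nonneg_right ?_ this.le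
    exact pow_le_pow_of_le_one hx0.le hx1.le (by omega)
  refine (mul_le_mul_of_nonneg_left hsum (by positivity)).trans ?_
  have h1x : 0 < 1 - x := by linarith
  have h7 : 16 * C * (x ^ n / (1 - x)) ≤ 1 / 2 := by
    rw [lt_div_iff₀ (by positivity)] at hn
    rw [mul_div_assoc', div_le_iff₀ h1x]
    linarith
  calc C * Qt * (16 * (x ^ n / (1 - x))) = (16 * C * (x ^ n / (1 - x))) * Qt := by ring
    _ ≤ 1 / 2 * Qt := mul_le_mul_of_nonneg_right h7 hQ0

end DP
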